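import Mathlib

/-!
# Wiener–Ikehara theorem, part 1 (helper19)

The Laplace transform of the normalised summatory function.
-/

set_option autoImplicit false

open MeasureTheory Set Filter Topology Complex

namespace WI

/-- summatory function -/
noncomputable def S (f : ℕ → ℝ) (t : ℝ) : ℝ := ∑ k ∈ Finset.Icc 1 ⌊t⌋₊, f k

/-- the normalised summatory function in the variable `u = log t` -/
noncomputable def av (f : ℕ → ℝ) (u : ℝ) : ℝ := S f (Real.exp u) * Real.exp (-u)

variable {f : ℕ → ℝ} {C : ℝ}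

theorem S_nonneg (hf : ∀ n, 0 ≤ f n) (t : ℝ) : 0 ≤ S f t :=
  Finset.sum_nonneg fun k _ => hf k

theorem S_mono (hf : ∀ n, 0 ≤ f n) : Monotone (S f) := by
  intro s t h
  apply Finset.sum_le_sum_of_subset_of_nonneg
  · exact Finset.Icc_subset_Icc_right (Nat.floor_mono h)
  · exact fun k _ _ => hf k

theorem S_le (hC : ∀ n : ℕ, ∑ k ∈ Finset.Icc 1 n, f k ≤ C * n) (hC0 : 0 ≤ C) {t : ℝ} (ht : 0 ≤ t) :
    S f t ≤ C * t :=
  (hC _).trans (mul_le_mul_of_nonneg_left (Nat.floor_le ht) hC0)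

theorem av_nonneg (hf : ∀ n, 0 ≤ f n) (u : ℝ) : 0 ≤ av f u :=
  mul_nonneg (S_nonneg hf _) (Real.exp_pos _).le

theorem av_le (hC : ∀ n : ℕ, ∑ k ∈ Finset.Icc 1 n, f k ≤ C * n) (hC0 : 0 ≤ C) (u : ℝ) :
    av f u ≤ C := by
  have h := S_le hC hC0 (Real.exp_pos u).le
  calc av f u ≤ (C * Real.exp u) * Real.exp (-u) :=
        mul_le_mul_of_nonneg_right h (Real.exp_pos _).le
    _ = C := by rw [mul_assoc, ← Real.exp_add]; simp

theorem av_meas (hf : ∀ n, 0 ≤ f n) : Measurable (av f) :=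
  ((S_mono hf).measurable.comp Real.measurable_exp).mul
    (Real.measurable_exp.comp measurable_neg)

theorem av_mono (hf : ∀ n, 0 ≤ f n) {u v : ℝ} (h : u ≤ v) : av f u * Real.exp (u - v) ≤ av f v := by
  have h1 := S_mono hf (Real.exp_le_exp.2 h)
  calc av f u * Real.exp (u - v) = S f (Real.exp u) * Real.exp (-v) := by
        unfold av
        rw [mul_assoc, ← Real.exp_add]
        congr 2
        ring
    _ ≤ S f (Real.exp v) * Real.exp (-v) := mul_le_mul_of_nonneg_right h1 (Real.exp_pos _).le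

theorem exp_image : Real.exp '' Ioi 0 = Ioi 1 := by
  ext x
  simp only [mem_image, mem_Ioi]
  constructor
  · rintro ⟨u, hu, rfl⟩
    exact Real.one_lt_exp_iff.2 hu
  · intro hx
    exact ⟨Real.log x, Real.log_pos hx, Real.exp_log (by linarith)⟩

theorem cpow_exp (u : ℝ) (z : ℂ) : ((Real.exp u : ℝ) : ℂ) ^ z = Complex.exp (z * u) := by
  rw [Complex.cpow_def_of_ne_zero (by exact_mod_cast (Real.exp_pos u).ne'),
    ← Complex.ofReal_log (Real.exp_pos u).le, Real.log_exp, mul_comm]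

theorem integrable_av_exp (hf : ∀ n, 0 ≤ f n) (hC : ∀ n : ℕ, ∑ k ∈ Finset.Icc 1 n, f k ≤ C * n)
    (hC0 : 0 ≤ C) {w : ℂ} (hw : 0 < w.re) :
    IntegrableOn (fun u : ℝ => (av f u : ℂ) * Complex.exp (-w * u)) (Ioi 0) := by
  have h1 : IntegrableOn (fun u : ℝ => Complex.exp (-w * u)) (Ioi 0) :=
    integrableOn_exp_mul_complex_Ioi (by simpa using hw) 0
  refine Integrable.bdd_mul (c := C) h1 ?_ ?_
  · exact (Complex.measurable_ofReal.comp (av_meas hf)).aestronglyMeasurable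
  · refine Eventually.of_forall fun u => ?_
    rw [Complex.norm_real, Real.norm_of_nonneg (av_nonneg hf u)]
    exact av_le hC hC0 u

theorem laplace_av (hf : ∀ n, 0 ≤ f n) (hC : ∀ n : ℕ, ∑ k ∈ Finset.Icc 1 n, f k ≤ C * n)
    {w : ℂ} (hw : 0 < w.re) :
    LSeries (fun n => (f n : ℂ)) (1 + w) =
      (1 + w) * ∫ u in Ioi (0 : ℝ), (av f u : ℂ) * Complex.exp (-w * u) := by
  have hO : (fun n : ℕ ↦ ∑ k ∈ Finset.Icc 1 n, f k) =O[atTop] fun n ↦ (n : ℝ) ^ (1 : ℝ) := by
    refine Asymptotics.IsBigO.of_bound C (Eventually.of_forall fun n => ?_)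
    rw [Real.rpow_one, Real.norm_of_nonneg (Finset.sum_nonneg fun k _ => hf k),
      Real.norm_of_nonneg (Nat.cast_nonneg n)]
    exact hC n
  have h := LSeries_eq_mul_integral_of_nonneg f zero_le_one (s := 1 + w) (by simpa using hw) hO hf
  rw [h]
  congr 1
  rw [← exp_image, integral_image_eq_integral_abs_deriv_smul measurableSet_Ioi
    (fun x _ => (Real.hasDerivAt_exp x).hasDerivWithinAt) Real.exp_injective.injOn]
  refine setIntegral_congr_fun measurableSet_Ioi fun u _ => ?_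
  rw [cpow_exp, abs_of_pos (Real.exp_pos u)]
  have h1 : (∑ k ∈ Finset.Icc 1 ⌊Real.exp u⌋₊, (f k : ℂ)) = (S f (Real.exp u) : ℂ) := by
    unfold S; push_cast; rfl
  rw [h1, Complex.real_smul]
  unfold av
  push_cast
  have h2 : Complex.exp (u : ℂ) * Complex.exp (-(1 + w + 1) * u) =
      Complex.exp (-(u : ℂ)) * Complex.exp (-w * u) := by
    rw [← Complex.exp_add, ← Complex.exp_add]
    congr 1
    ring
  rw [mul_left_comm, h2]
  ring

theorem laplace_sub (hf : ∀ n, 0 ≤ f n) (hC : ∀ n : ℕ, ∑ k ∈ Finset.Icc 1 n, f k ≤ C * n)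
    (hC0 : 0 ≤ C) {A : ℝ} {H : ℂ → ℂ}
    (hH : ∀ s : ℂ, 1 < s.re → LSeries (fun n => (f n : ℂ)) s = H s + A / (s - 1))
    {w : ℂ} (hw : 0 < w.re) :
    ∫ u in Ioi (0 : ℝ), ((av f u : ℂ) - A) * Complex.exp (-w * u) = (H (1 + w) - A) / (1 + w) := by
  have h1 : IntegrableOn (fun u : ℝ => Complex.exp (-w * u)) (Ioi 0) :=
    integrableOn_exp_mul_complex_Ioi (by simpa using hw) 0
  have h2 := integrable_av_exp hf hC hC0 hw
  have h3 : ∫ u in Ioi (0 : ℝ), Complex.exp (-w * u) = 1 / w := by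
    rw [integral_exp_mul_complex_Ioi (by simpa using hw)]
    have : w ≠ 0 := fun h => by simp [h] at hw
    simp
  have h4 := laplace_av hf hC hw
  have hw1 : (1 : ℂ) + w ≠ 0 := by
    intro h
    have := congrArg Complex.re h
    simp at this
    linarith
  have hw0 : w ≠ 0 := fun h => by simp [h] at hw
  have h5 := hH (1 + w) (by simpa using hw)
  have h6 : ∫ u in Ioi (0 : ℝ), ((av f u : ℂ) - A) * Complex.exp (-w * u) =
      (∫ u in Ioi (0 : ℝ), (av f u : ℂ) * Complex.exp (-w * u)) -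
        A * ∫ u in Ioi (0 : ℝ), Complex.exp (-w * u) := by
    rw [← integral_const_mul, ← integral_sub h2 (h1.const_mul _)]
    refine integral_congr_ae (Eventually.of_forall fun u => ?_)
    simp only
    ring
  rw [h6, h3]
  have h7 : ∫ u in Ioi (0 : ℝ), (av f u : ℂ) * Complex.exp (-w * u) =
      (H (1 + w) + A / w) / (1 + w) := by
    rw [eq_div_iff hw1, mul_comm, ← h4, h5]
    simp
  rw [h7]
  field_simp
  ring

end WI
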