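import Mathlib

/-!
# Wiener–Ikehara theorem, part 2 (helper19)

The Fejér kernel.
-/

set_option autoImplicit false

open MeasureTheory Set Filter Topology Complex

namespace WI

/-- the Fejér kernel -/
noncomputable def ker (v : ℝ) : ℝ := if v = 0 then 1 else 2 * (1 - Real.cos v) / v ^ 2

theorem ker_nonneg (v : ℝ) : 0 ≤ ker v := by
  unfold ker
  split_ifs
  · exact zero_le_one
  · have := Real.cos_le_one v
    exact div_nonneg (by linarith) (sq_nonneg v)

theorem ker_le (v : ℝ) : ker v ≤ 5 * (1 + v ^ 2)⁻¹ := by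
  unfold ker
  split_ifs with h
  · subst h; norm_num
  · have hv : 0 < v ^ 2 := by positivity
    rw [← div_eq_mul_inv, div_le_div_iff₀ hv (by positivity)]
    have h1 := Real.neg_one_le_cos v
    have h2 := Real.one_sub_sq_div_two_le_cos (x := v)
    by_cases h4 : v ^ 2 ≤ 4
    · nlinarith
    · nlinarith

theorem ker_meas : Measurable ker := by
  unfold ker
  refine Measurable.ite (measurableSet_singleton 0) measurable_const ?_
  exact ((measurable_const.sub Real.measurable_cos).const_mul 2).div (measurable_id.pow_const 2)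

theorem ker_integrable : Integrable ker := by
  refine Integrable.mono' (integrable_inv_one_add_sq.const_mul 5) ker_meas.aestronglyMeasurable ?_
  refine Eventually.of_forall fun v => ?_
  rw [Real.norm_of_nonneg (ker_nonneg v)]
  exact ker_le v

theorem ker_neg (v : ℝ) : ker (-v) = ker v := by
  unfold ker
  simp

/-- total mass -/
noncomputable def M : ℝ := ∫ v, ker v

theorem M_pos : 0 < M := by
  have h1 : ∀ v ∈ Icc (0:ℝ) 1, 4 / Real.pi ^ 2 ≤ ker v := by
    intro v hv
    unfold ker
    have hpi := Real.pi_gt_three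
    split_ifs with h
    · rw [div_le_one (by positivity)]
      nlinarith
    · have hv0 : 0 < v ^ 2 := by positivity
      rw [div_le_div_iff₀ (by positivity) hv0]
      have h2 := Real.cos_le_one_sub_mul_cos_sq (x := v) (by
        rw [abs_of_nonneg hv.1]; linarith [hv.2])
      have h3 : 0 < Real.pi ^ 2 := by positivity
      have h4 : 2 / Real.pi ^ 2 * v ^ 2 * Real.pi ^ 2 = 2 * v ^ 2 := by
        field_simp
      nlinarith
  have h2 : ∫ v in Icc (0:ℝ) 1, ker v ≤ M :=
    setIntegral_le_integral ker_integrable (Eventually.of_forall ker_nonneg)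
  have h3 : ∫ _v in Icc (0:ℝ) 1, (4 / Real.pi ^ 2) ≤ ∫ v in Icc (0:ℝ) 1, ker v :=
    setIntegral_mono_on (integrableOn_const (by simp)) ker_integrable.integrableOn
      measurableSet_Icc h1
  have h4 : ∫ _v in Icc (0:ℝ) 1, (4 / Real.pi ^ 2) = 4 / Real.pi ^ 2 := by
    simp
  have h5 : 0 < 4 / Real.pi ^ 2 := by positivity
  linarith

theorem fejer_half {z : ℂ} (hz : z ≠ 0) :
    ∫ y in (0:ℝ)..1, ((1 - y : ℝ) : ℂ) * Complex.exp (z * y) =
      Complex.exp z / z ^ 2 - 1 / z - 1 / z ^ 2 := by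
  have hd : ∀ y ∈ uIcc (0:ℝ) 1, HasDerivAt
      (fun y : ℝ => ((1 - y : ℝ) : ℂ) * Complex.exp (z * y) / z + Complex.exp (z * y) / z ^ 2)
      (((1 - y : ℝ) : ℂ) * Complex.exp (z * y)) y := by
    intro y _
    have h1 : HasDerivAt (fun y : ℝ => Complex.exp (z * y)) (Complex.exp (z * y) * z) y := by
      have h0 : HasDerivAt (fun y : ℝ => z * (y : ℂ)) z y := by
        simpa using (Complex.ofRealCLM.hasDerivAt (x := y)).const_mul z
      exact h0.cexp
    have h2 : HasDerivAt (fun y : ℝ => ((1 - y : ℝ) : ℂ)) (-1) y := by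
      have h0 : HasDerivAt (fun y : ℝ => 1 - y) (-1) y := by
        simpa using (hasDerivAt_id y).const_sub 1
      simpa using h0.ofReal_comp
    have h3 := ((h2.mul h1).div_const z).add (h1.div_const (z ^ 2))
    refine h3.congr_deriv ?_
    field_simp
    ring
  rw [intervalIntegral.integral_eq_sub_of_hasDerivAt hd]
  · simp
    ring
  · refine Continuous.intervalIntegrable ?_ _ _
    fun_prop

theorem fejer (v : ℝ) :
    ∫ y in (-1:ℝ)..1, ((1 - |y| : ℝ) : ℂ) * Complex.exp (I * (y * v)) = ker v := by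
  have hc : Continuous fun y : ℝ => ((1 - |y| : ℝ) : ℂ) * Complex.exp (I * (y * v)) := by
    fun_prop
  have hsplit := intervalIntegral.integral_add_adjacent_intervals
    (hc.intervalIntegrable (μ := volume) (-1) 0) (hc.intervalIntegrable (μ := volume) 0 1)
  rw [← hsplit]
  have h1 : ∫ y in (0:ℝ)..1, ((1 - |y| : ℝ) : ℂ) * Complex.exp (I * (y * v)) =
      ∫ y in (0:ℝ)..1, ((1 - y : ℝ) : ℂ) * Complex.exp ((I * v) * y) := by
    refine intervalIntegral.integral_congr fun y hy => ?_
    rw [uIcc_of_le zero_le_one] at hy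
    rw [abs_of_nonneg hy.1]
    congr 2
    ring
  have h2 : ∫ y in (-1:ℝ)..0, ((1 - |y| : ℝ) : ℂ) * Complex.exp (I * (y * v)) =
      ∫ y in (0:ℝ)..1, ((1 - y : ℝ) : ℂ) * Complex.exp ((-(I * v)) * y) := by
    have h3 := intervalIntegral.integral_comp_neg (a := (0:ℝ)) (b := 1)
      (fun y : ℝ => ((1 - |y| : ℝ) : ℂ) * Complex.exp (I * (y * v)))
    rw [neg_zero] at h3
    rw [← h3]
    refine intervalIntegral.integral_congr fun y hy => ?_
    rw [uIcc_of_le zero_le_one] at hy
    rw [abs_neg, abs_of_nonneg hy.1]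
    congr 2
    push_cast
    ring
  rw [h1, h2]
  by_cases hv : v = 0
  · subst hv
    have h3 : ∫ y in (0:ℝ)..1, ((1 - y : ℝ) : ℂ) = 1 / 2 := by
      rw [intervalIntegral.integral_ofReal, intervalIntegral.integral_sub (by simp) (by simp)]
      norm_num
    simp only [Complex.ofReal_zero, mul_zero, neg_zero, zero_mul, Complex.exp_zero, mul_one]
    rw [h3]
    norm_num [ker]
  · have hv' : (v : ℂ) ≠ 0 := by exact_mod_cast hv
    have hz : I * (v : ℂ) ≠ 0 := mul_ne_zero I_ne_zero hv'
    rw [fejer_half hz, fejer_half (neg_ne_zero.2 hz)]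
    unfold ker
    rw [if_neg hv]
    push_cast
    rw [Complex.cos]
    have hI : (I * (v : ℂ)) ^ 2 = - (v : ℂ) ^ 2 := by
      rw [mul_pow, I_sq]; ring
    have hI2 : (-(I * (v : ℂ))) ^ 2 = - (v : ℂ) ^ 2 := by
      rw [neg_sq, hI]
    rw [hI, hI2, show (v : ℂ) * I = I * v by ring, show -(v : ℂ) * I = -(I * v) by ring]
    field_simp
    ring

theorem fejer_scaled {lam : ℝ} (hl : 0 < lam) (v : ℝ) :
    ∫ y in (-lam)..lam, ((1 - |y| / lam : ℝ) : ℂ) * Complex.exp (I * (y * v)) =
      ((lam * ker (lam * v) : ℝ) : ℂ) := by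
  have h := intervalIntegral.integral_comp_mul_left (a := -1) (b := 1)
    (fun y : ℝ => ((1 - |y| / lam : ℝ) : ℂ) * Complex.exp (I * (y * v))) hl.ne'
  have h2 : ∫ y in (-1:ℝ)..1, ((1 - |lam * y| / lam : ℝ) : ℂ) *
      Complex.exp (I * (((lam * y : ℝ) : ℂ) * v)) = ker (lam * v) := by
    rw [← fejer]
    refine intervalIntegral.integral_congr fun y _ => ?_
    rw [abs_mul, abs_of_pos hl, mul_div_cancel_left₀ _ hl.ne']
    congr 2
    push_cast
    ring
  rw [h2] at h
  have h3 : ∫ y in (-lam)..lam, ((1 - |y| / lam : ℝ) : ℂ) * Complex.exp (I * (y * v)) =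
      lam * ker (lam * v) := by
    rw [h, mul_neg, mul_one, Complex.real_smul, Complex.ofReal_inv, ← mul_assoc,
      mul_inv_cancel₀ (by exact_mod_cast hl.ne'), one_mul]
  rw [h3]
  push_cast
  ring

end WI
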