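import Mathlib
import Pool.Agent.Work.WI.W1
import Pool.Agent.Work.WI.W2

/-!
# Wiener–Ikehara theorem, part 3 (helper19)

Fubini and the limit `σ → 0`.
-/

set_option autoImplicit false

open MeasureTheory Set Filter Topology Complex

namespace WI

variable {f : ℕ → ℝ} {C : ℝ}

theorem fubini (hf : ∀ n, 0 ≤ f n) (hC : ∀ n : ℕ, ∑ k ∈ Finset.Icc 1 n, f k ≤ C * n)
    (hC0 : 0 ≤ C) {A : ℝ} {H : ℂ → ℂ}
    (hH : ∀ s : ℂ, 1 < s.re → LSeries (fun n => (f n : ℂ)) s = H s + A / (s - 1))
    {σ lam : ℝ} (hσ : 0 < σ) (hl : 0 < lam) (x : ℝ) :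
    ∫ u in Ioi (0 : ℝ), ((av f u : ℂ) - A) * Complex.exp (-σ * u) *
        ((lam * ker (lam * (x - u)) : ℝ) : ℂ) =
      ∫ y in (-lam)..lam, ((1 - |y| / lam : ℝ) : ℂ) * Complex.exp (I * (y * x)) *
        ((H (1 + (σ + y * I)) - A) / (1 + (σ + y * I))) := by
  have hφ : IntegrableOn (fun u : ℝ => ((av f u : ℂ) - A) * Complex.exp (-σ * u)) (Ioi 0) := by
    have h1 : IntegrableOn (fun u : ℝ => Complex.exp (-(σ : ℂ) * u)) (Ioi 0) :=
      integrableOn_exp_mul_complex_Ioi (by simpa using hσ) 0
    have h2 := integrable_av_exp hf hC hC0 (w := (σ : ℂ)) (by simpa using hσ)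
    refine (h2.sub (h1.const_mul (A : ℂ))).congr (Eventually.of_forall fun u => ?_)
    simp only [Pi.sub_apply]
    ring
  have hψ : Integrable (fun y : ℝ => ((1 - |y| / lam : ℝ) : ℂ))
      (volume.restrict (Ioc (-lam) lam)) := by
    have : Continuous (fun y : ℝ => ((1 - |y| / lam : ℝ) : ℂ)) := by fun_prop
    exact (this.integrableOn_Icc (a := -lam) (b := lam)).mono_set Ioc_subset_Icc_self
  have hprod := Integrable.mul_prod hφ hψ
  have hint : Integrable (Function.uncurry fun (u y : ℝ) =>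
      (((av f u : ℂ) - A) * Complex.exp (-σ * u) * ((1 - |y| / lam : ℝ) : ℂ)) *
        Complex.exp (I * (y * (x - u))))
      ((volume.restrict (Ioi 0)).prod (volume.restrict (Ioc (-lam) lam))) := by
    refine Integrable.mul_bdd (c := 1) hprod ?_ ?_
    · refine Continuous.aestronglyMeasurable ?_
      fun_prop
    · refine Eventually.of_forall fun z => ?_
      rw [Complex.norm_exp]
      simp
  have hswap := integral_integral_swap hint
  have hL : ∫ u in Ioi (0 : ℝ), ((av f u : ℂ) - A) * Complex.exp (-σ * u) *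
        ((lam * ker (lam * (x - u)) : ℝ) : ℂ) =
      ∫ u in Ioi (0 : ℝ), ∫ y in Ioc (-lam) lam,
        (((av f u : ℂ) - A) * Complex.exp (-σ * u) * ((1 - |y| / lam : ℝ) : ℂ)) *
        Complex.exp (I * (y * (x - u))) := by
    refine integral_congr_ae (Eventually.of_forall fun u => ?_)
    simp only
    rw [← fejer_scaled hl, intervalIntegral.integral_of_le (by linarith), ← integral_const_mul]
    refine integral_congr_ae (Eventually.of_forall fun y => ?_)
    simp only
    push_cast
    ring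
  rw [hL, hswap, intervalIntegral.integral_of_le (by linarith)]
  refine integral_congr_ae (Eventually.of_forall fun y => ?_)
  simp only
  rw [← laplace_sub hf hC hC0 hH (w := (σ : ℂ) + y * I) (by simpa using hσ), ← integral_const_mul]
  refine integral_congr_ae (Eventually.of_forall fun u => ?_)
  simp only
  have h1 : Complex.exp (I * (y * (x - u))) * Complex.exp (-σ * u) =
      Complex.exp (I * (y * x)) * Complex.exp (-((σ : ℂ) + y * I) * u) := by
    rw [← Complex.exp_add, ← Complex.exp_add]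
    congr 1
    ring
  calc ((av f u : ℂ) - A) * Complex.exp (-σ * u) * ((1 - |y| / lam : ℝ) : ℂ) *
        Complex.exp (I * (y * (x - u))) = ((av f u : ℂ) - A) * ((1 - |y| / lam : ℝ) : ℂ) *
        (Complex.exp (I * (y * (x - u))) * Complex.exp (-σ * u)) := by ring
    _ = _ := by rw [h1]; ring

theorem ker_comp_integrable {lam : ℝ} (hl : 0 < lam) (x : ℝ) :
    Integrable fun u : ℝ => lam * ker (lam * (x - u)) := by
  have h1 : Integrable fun u : ℝ => ker (lam * u) := ker_integrable.comp_mul_left' hl.ne'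
  exact (h1.comp_sub_left x).const_mul lam

theorem key0 (hf : ∀ n, 0 ≤ f n) (hC : ∀ n : ℕ, ∑ k ∈ Finset.Icc 1 n, f k ≤ C * n)
    (hC0 : 0 ≤ C) {A : ℝ} {H : ℂ → ℂ}
    (hH : ∀ s : ℂ, 1 < s.re → LSeries (fun n => (f n : ℂ)) s = H s + A / (s - 1))
    (hHc : ContinuousOn H {s | 1 ≤ s.re})
    {lam : ℝ} (hl : 0 < lam) (x : ℝ) :
    ∫ u in Ioi (0 : ℝ), ((av f u : ℂ) - A) * ((lam * ker (lam * (x - u)) : ℝ) : ℂ) =
      ∫ y in (-lam)..lam, ((1 - |y| / lam : ℝ) : ℂ) * Complex.exp (I * (y * x)) *
        ((H (1 + y * I) - A) / (1 + y * I)) := by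
  -- the function `G`
  set G : ℂ → ℂ := fun w => (H (1 + w) - A) / (1 + w) with hG
  have hGc : ContinuousOn G {w | 0 ≤ w.re} := by
    refine ContinuousOn.div ?_ (by fun_prop) ?_
    · refine ContinuousOn.sub ?_ continuousOn_const
      refine hHc.comp (by fun_prop) fun w hw => ?_
      simpa using hw
    · intro w hw h
      have := congrArg Complex.re h
      simp at this hw
      linarith
  -- compact rectangle
  have hcont : ContinuousOn (fun z : ℝ × ℝ => G ((z.1 : ℂ) + z.2 * I))
      (Icc (0:ℝ) 1 ×ˢ Icc (-lam) lam) := by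
    refine hGc.comp (by fun_prop) fun z hz => ?_
    simpa using hz.1.1
  obtain ⟨B, hB⟩ := (isCompact_Icc.prod isCompact_Icc).exists_bound_of_continuousOn hcont
  have hlimL : Tendsto (fun σ : ℝ => ∫ u in Ioi (0 : ℝ), ((av f u : ℂ) - A) *
      Complex.exp (-σ * u) * ((lam * ker (lam * (x - u)) : ℝ) : ℂ)) (𝓝[>] 0)
      (𝓝 (∫ u in Ioi (0 : ℝ), ((av f u : ℂ) - A) * ((lam * ker (lam * (x - u)) : ℝ) : ℂ))) := by
    refine tendsto_integral_filter_of_dominated_convergence
      (fun u => (C + |A|) * (lam * ker (lam * (x - u)))) ?_ ?_ ?_ ?_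
    · refine Eventually.of_forall fun σ => ?_
      refine Measurable.aestronglyMeasurable ?_
      have h1 := Complex.measurable_ofReal.comp (av_meas hf)
      have h2 : Measurable fun u : ℝ => ((lam * ker (lam * (x - u)) : ℝ) : ℂ) := by
        refine Complex.measurable_ofReal.comp ?_
        exact (ker_meas.comp ((measurable_const.sub measurable_id).const_mul lam)).const_mul lam
      have h3 : Measurable fun u : ℝ => Complex.exp (-(σ : ℂ) * u) := by
        refine Continuous.measurable ?_
        fun_prop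
      exact ((h1.sub_const _).mul h3).mul h2
    · filter_upwards [self_mem_nhdsWithin] with σ hσ
      filter_upwards [ae_restrict_mem measurableSet_Ioi] with u hu
      rw [norm_mul, norm_mul]
      have h1 : ‖((av f u : ℂ) - A)‖ ≤ C + |A| := by
        refine (norm_sub_le _ _).trans (add_le_add ?_ ?_)
        · rw [Complex.norm_real, Real.norm_of_nonneg (av_nonneg hf u)]
          exact av_le hC hC0 u
        · rw [Complex.norm_real, Real.norm_eq_abs]
      have h2 : ‖Complex.exp (-(σ : ℂ) * u)‖ ≤ 1 := by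
        rw [Complex.norm_exp]
        simp only [neg_mul, neg_re, mul_re, ofReal_re, ofReal_im, mul_zero, sub_zero,
          Real.exp_le_one_iff, Left.neg_nonpos_iff]
        exact mul_nonneg (le_of_lt hσ) (le_of_lt hu)
      have h3 : 0 ≤ lam * ker (lam * (x - u)) := mul_nonneg hl.le (ker_nonneg _)
      rw [Complex.norm_real, Real.norm_of_nonneg h3]
      have h4 : 0 ≤ C + |A| := add_nonneg hC0 (abs_nonneg A)
      calc ‖((av f u : ℂ) - A)‖ * ‖Complex.exp (-(σ : ℂ) * u)‖ * (lam * ker (lam * (x - u)))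
          ≤ (C + |A|) * 1 * (lam * ker (lam * (x - u))) := by gcongr
        _ = _ := by ring
    · exact ((ker_comp_integrable hl x).const_mul _).integrableOn
    · refine Eventually.of_forall fun u => ?_
      have h1 : Tendsto (fun σ : ℝ => Complex.exp (-(σ : ℂ) * u)) (𝓝[>] 0) (𝓝 1) := by
        have h2 : Continuous fun σ : ℝ => Complex.exp (-(σ : ℂ) * u) := by fun_prop
        have h3 := h2.tendsto 0
        simp only [Complex.ofReal_zero, neg_zero, zero_mul, Complex.exp_zero] at h3
        exact h3.mono_left nhdsWithin_le_nhds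
      have h2 := (h1.const_mul ((av f u : ℂ) - A)).mul_const ((lam * ker (lam * (x - u)) : ℝ) : ℂ)
      rwa [mul_one] at h2
  have hlimR : Tendsto (fun σ : ℝ => ∫ y in (-lam)..lam, ((1 - |y| / lam : ℝ) : ℂ) *
      Complex.exp (I * (y * x)) * G (σ + y * I)) (𝓝[>] 0)
      (𝓝 (∫ y in (-lam)..lam, ((1 - |y| / lam : ℝ) : ℂ) * Complex.exp (I * (y * x)) *
        G (y * I))) := by
    have hσ1 : ∀ᶠ σ : ℝ in 𝓝[>] 0, 0 < σ ∧ σ ≤ 1 := by
      filter_upwards [self_mem_nhdsWithin, nhdsWithin_le_nhds (Iic_mem_nhds zero_lt_one)]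
        with σ h1 h2
      exact ⟨h1, h2⟩
    refine intervalIntegral.tendsto_integral_filter_of_dominated_convergence (fun _ => B)
      ?_ ?_ ?_ ?_
    · filter_upwards [hσ1] with σ hσ
      refine ContinuousOn.aestronglyMeasurable ?_ measurableSet_uIoc
      refine ContinuousOn.mul (by fun_prop) ?_
      refine hGc.comp (by fun_prop) fun y _ => ?_
      simpa using hσ.1.le
    · filter_upwards [hσ1] with σ hσ
      refine Eventually.of_forall fun y hy => ?_
      rw [uIoc_of_le (by linarith)] at hy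
      have hy' : |y| ≤ lam := abs_le.2 ⟨hy.1.le, hy.2⟩
      rw [norm_mul, norm_mul]
      have h1 : ‖((1 - |y| / lam : ℝ) : ℂ)‖ ≤ 1 := by
        rw [Complex.norm_real, Real.norm_eq_abs, abs_le]
        have h2 : |y| / lam ≤ 1 := (div_le_one hl).2 hy'
        have h3 : 0 ≤ |y| / lam := by positivity
        constructor <;> linarith
      have h2 : ‖Complex.exp (I * (y * x))‖ = 1 := by
        rw [Complex.norm_exp]; simp
      have h3 := hB (σ, y) ⟨⟨hσ.1.le, hσ.2⟩, ⟨hy.1.le, hy.2⟩⟩
      simp only at h3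
      rw [h2, mul_one]
      calc ‖((1 - |y| / lam : ℝ) : ℂ)‖ * ‖G (σ + y * I)‖ ≤ 1 * B := by
            refine mul_le_mul h1 h3 (norm_nonneg _) zero_le_one
        _ = B := one_mul B
    · exact intervalIntegrable_const
    · refine Eventually.of_forall fun y _ => ?_
      refine Tendsto.const_mul _ ?_
      have h1 : Tendsto (fun σ : ℝ => (σ : ℂ) + y * I) (𝓝[>] 0) (𝓝[{w | 0 ≤ w.re}] (y * I)) := by
        refine tendsto_nhdsWithin_iff.2 ⟨?_, ?_⟩
        · have h2 : Continuous fun σ : ℝ => (σ : ℂ) + y * I := by fun_prop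
          have h3 := h2.tendsto 0
          simp only [Complex.ofReal_zero, zero_add] at h3
          exact h3.mono_left nhdsWithin_le_nhds
        · filter_upwards [hσ1] with σ hσ
          simpa using hσ.1.le
      exact (hGc (y * I) (by simp)).tendsto.comp h1
  have heq : (fun σ : ℝ => ∫ u in Ioi (0 : ℝ), ((av f u : ℂ) - A) *
      Complex.exp (-σ * u) * ((lam * ker (lam * (x - u)) : ℝ) : ℂ)) =ᶠ[𝓝[>] 0]
      (fun σ : ℝ => ∫ y in (-lam)..lam, ((1 - |y| / lam : ℝ) : ℂ) *
      Complex.exp (I * (y * x)) * G (σ + y * I)) := by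
    filter_upwards [self_mem_nhdsWithin] with σ hσ
    exact fubini hf hC hC0 hH hσ hl x
  exact tendsto_nhds_unique (hlimL.congr' heq) hlimR

/-- Riemann–Lebesgue. -/
theorem tendsto_diff (hf : ∀ n, 0 ≤ f n) (hC : ∀ n : ℕ, ∑ k ∈ Finset.Icc 1 n, f k ≤ C * n)
    (hC0 : 0 ≤ C) {A : ℝ} {H : ℂ → ℂ}
    (hH : ∀ s : ℂ, 1 < s.re → LSeries (fun n => (f n : ℂ)) s = H s + A / (s - 1))
    (hHc : ContinuousOn H {s | 1 ≤ s.re})
    {lam : ℝ} (hl : 0 < lam) :
    Tendsto (fun x : ℝ => ∫ u in Ioi (0 : ℝ), (av f u - A) * (lam * ker (lam * (x - u))))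
      atTop (𝓝 0) := by
  set g : ℝ → ℂ := fun y => indicator (Ioc (-lam) lam)
    (fun y : ℝ => ((1 - |y| / lam : ℝ) : ℂ) * ((H (1 + y * I) - A) / (1 + y * I))) y with hg
  have h1 := Real.tendsto_integral_exp_smul_cocompact g
  have h2 : Tendsto (fun x : ℝ => -(x / (2 * Real.pi))) atTop (cocompact ℝ) := by
    have h3 : Tendsto (fun x : ℝ => -(x / (2 * Real.pi))) atTop atBot :=
      tendsto_neg_atTop_atBot.comp (tendsto_id.atTop_div_const (by positivity))
    exact h3.mono_right atBot_le_cocompact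
  have h3 := h1.comp h2
  have h4 : (fun x : ℝ => ((∫ u in Ioi (0 : ℝ), (av f u - A) * (lam * ker (lam * (x - u))) : ℝ) : ℂ))
      = (fun w : ℝ => ∫ v : ℝ, Real.fourierChar (-(v * w)) • g v) ∘
        fun x : ℝ => -(x / (2 * Real.pi)) := by
    funext x
    simp only [Function.comp]
    have h5 := key0 hf hC hC0 hH hHc hl x
    have h6 : ((∫ u in Ioi (0 : ℝ), (av f u - A) * (lam * ker (lam * (x - u))) : ℝ) : ℂ) =
        ∫ u in Ioi (0 : ℝ), ((av f u : ℂ) - A) * ((lam * ker (lam * (x - u)) : ℝ) : ℂ) := by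
      rw [← integral_complex_ofReal]
      refine integral_congr_ae (Eventually.of_forall fun u => ?_)
      simp only
      push_cast
      ring
    rw [h6, h5, intervalIntegral.integral_of_le (by linarith), ← integral_indicator measurableSet_Ioc]
    refine integral_congr_ae (Eventually.of_forall fun y => ?_)
    simp only [hg]
    by_cases hy : y ∈ Ioc (-lam) lam
    · rw [indicator_of_mem hy, indicator_of_mem hy]
      rw [Circle.smul_def, smul_eq_mul, Real.fourierChar_apply]
      have h7 : (2 * Real.pi * (-(y * -(x / (2 * Real.pi)))) : ℝ) = y * x := by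
        have := Real.pi_pos
        field_simp
      rw [h7]
      have h8 : Complex.exp (I * (y * x)) = Complex.exp (((y * x : ℝ) : ℂ) * I) := by
        congr 1
        push_cast
        ring
      rw [h8]
      ring
    · rw [indicator_of_notMem hy, indicator_of_notMem hy, smul_zero]
  rw [← h4] at h3
  have h5 := (Complex.continuous_re.tendsto 0).comp h3
  simpa only [Function.comp_def, Complex.ofReal_re, Complex.zero_re] using h5

end WI
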