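import Mathlib
import Pool.Agent.Work.WI.W3

/-!
# Wiener–Ikehara theorem, part 4 (helper19)

The Tauberian step.
-/

set_option autoImplicit false

open MeasureTheory Set Filter Topology

namespace WI

/-- mass of the kernel on `[-T, T]` -/
noncomputable def mk (T : ℝ) : ℝ := ∫ v in (-T)..T, ker v

theorem mk_tendsto : Tendsto mk atTop (𝓝 M) :=
  intervalIntegral_tendsto_integral ker_integrable tendsto_neg_atTop_atBot tendsto_id

theorem mk_nonneg {T : ℝ} (hT : 0 ≤ T) : 0 ≤ mk T :=
  intervalIntegral.integral_nonneg (by linarith) fun v _ => ker_nonneg v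

theorem mk_le {T : ℝ} (hT : 0 ≤ T) : mk T ≤ M := by
  unfold mk M
  rw [intervalIntegral.integral_of_le (by linarith)]
  exact setIntegral_le_integral ker_integrable (Eventually.of_forall ker_nonneg)

theorem total {lam : ℝ} (hl : 0 < lam) (x : ℝ) : ∫ u, lam * ker (lam * (x - u)) = M := by
  rw [integral_const_mul]
  have h1 : ∫ u, ker (lam * (x - u)) = ∫ u, ker (lam * u) :=
    integral_sub_left_eq_self (fun u => ker (lam * u)) volume x
  rw [h1, Measure.integral_comp_mul_left, abs_of_pos (inv_pos.2 hl), smul_eq_mul, ← mul_assoc,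
    mul_inv_cancel₀ hl.ne', one_mul]
  rfl

theorem local_mass {lam : ℝ} (hl : 0 < lam) (x : ℝ) {h : ℝ} (hh : 0 ≤ h) :
    ∫ u in Icc (x - h) (x + h), lam * ker (lam * (x - u)) = mk (lam * h) := by
  rw [integral_Icc_eq_integral_Ioc, ← intervalIntegral.integral_of_le (by linarith),
    intervalIntegral.integral_const_mul,
    intervalIntegral.integral_comp_sub_left (fun u => ker (lam * u)) x,
    intervalIntegral.integral_comp_mul_left _ hl.ne', smul_eq_mul, ← mul_assoc,
    mul_inv_cancel₀ hl.ne', one_mul]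
  unfold mk
  congr 1 <;> ring

theorem half_mass {lam : ℝ} (hl : 0 < lam) :
    Tendsto (fun x : ℝ => ∫ u in Ioi (0:ℝ), lam * ker (lam * (x - u))) atTop (𝓝 M) := by
  have h1 : Tendsto (fun x : ℝ => mk (lam * x)) atTop (𝓝 M) :=
    mk_tendsto.comp (tendsto_id.const_mul_atTop hl)
  refine tendsto_of_tendsto_of_tendsto_of_le_of_le' h1 tendsto_const_nhds ?_ ?_
  · filter_upwards [eventually_ge_atTop 0] with x hx
    rw [← local_mass hl x hx]
    have h2 : ∫ u in Icc (x - x) (x + x), lam * ker (lam * (x - u)) =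
        ∫ u in Ioc (x - x) (x + x), lam * ker (lam * (x - u)) := integral_Icc_eq_integral_Ioc
    rw [h2]
    refine setIntegral_mono_set (ker_comp_integrable hl x).integrableOn ?_ ?_
    · exact Eventually.of_forall fun u => mul_nonneg hl.le (ker_nonneg _)
    · refine LE.le.eventuallyLE fun u hu => ?_
      have := hu.1
      rw [sub_self] at this
      exact this
  · refine Eventually.of_forall fun x => ?_
    rw [← total hl x]
    exact setIntegral_le_integral (ker_comp_integrable hl x)
      (Eventually.of_forall fun u => mul_nonneg hl.le (ker_nonneg _))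

variable {f : ℕ → ℝ} {C : ℝ}

theorem av_ker_integrable (hf : ∀ n, 0 ≤ f n)
    (hC : ∀ n : ℕ, ∑ k ∈ Finset.Icc 1 n, f k ≤ C * n) (hC0 : 0 ≤ C) {lam : ℝ} (hl : 0 < lam)
    (x : ℝ) : Integrable fun u : ℝ => av f u * (lam * ker (lam * (x - u))) := by
  refine Integrable.bdd_mul (c := C) (ker_comp_integrable hl x) (av_meas hf).aestronglyMeasurable ?_
  refine Eventually.of_forall fun u => ?_
  rw [Real.norm_of_nonneg (av_nonneg hf u)]
  exact av_le hC hC0 u

/-- the smoothed average -/
noncomputable def P (f : ℕ → ℝ) (lam x : ℝ) : ℝ :=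
  ∫ u in Ioi (0:ℝ), av f u * (lam * ker (lam * (x - u)))

theorem P_tendsto (hf : ∀ n, 0 ≤ f n) (hC : ∀ n : ℕ, ∑ k ∈ Finset.Icc 1 n, f k ≤ C * n)
    (hC0 : 0 ≤ C) {A : ℝ} {H : ℂ → ℂ}
    (hH : ∀ s : ℂ, 1 < s.re → LSeries (fun n => (f n : ℂ)) s = H s + A / (s - 1))
    (hHc : ContinuousOn H {s | 1 ≤ s.re}) {lam : ℝ} (hl : 0 < lam) :
    Tendsto (P f lam) atTop (𝓝 (A * M)) := by
  have h1 := (tendsto_diff hf hC hC0 hH hHc hl).add ((half_mass hl).const_mul A)
  rw [zero_add] at h1
  refine h1.congr fun x => ?_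
  unfold P
  rw [← integral_const_mul, ← integral_add]
  · refine integral_congr_ae (Eventually.of_forall fun u => ?_)
    simp only
    ring
  · have h2 := (av_ker_integrable hf hC hC0 hl x).sub ((ker_comp_integrable hl x).const_mul A)
    refine (h2.congr (Eventually.of_forall fun u => ?_)).integrableOn
    simp only [Pi.sub_apply]
    ring
  · exact ((ker_comp_integrable hl x).const_mul A).integrableOn

theorem upper (hf : ∀ n, 0 ≤ f n) (hC : ∀ n : ℕ, ∑ k ∈ Finset.Icc 1 n, f k ≤ C * n)
    (hC0 : 0 ≤ C) {lam h x : ℝ} (hl : 0 < lam) (hh : 0 ≤ h) (hx : 0 < x) :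
    av f x * Real.exp (-(2 * h)) * mk (lam * h) ≤ P f lam (x + h) := by
  have h1 : ∀ u ∈ Icc (x + h - h) (x + h + h),
      av f x * Real.exp (-(2 * h)) * (lam * ker (lam * (x + h - u))) ≤
        av f u * (lam * ker (lam * (x + h - u))) := by
    intro u hu
    rw [add_sub_cancel_right] at hu
    refine mul_le_mul_of_nonneg_right ?_ (mul_nonneg hl.le (ker_nonneg _))
    refine le_trans ?_ (av_mono hf hu.1)
    refine mul_le_mul_of_nonneg_left (Real.exp_le_exp.2 ?_) (av_nonneg hf _)
    have := hu.2
    linarith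
  rw [← local_mass hl (x + h) hh, ← integral_const_mul]
  refine (setIntegral_mono_on ?_ (av_ker_integrable hf hC hC0 hl (x + h)).integrableOn
    measurableSet_Icc h1).trans ?_
  · exact ((ker_comp_integrable hl _).const_mul _).integrableOn
  · unfold P
    refine setIntegral_mono_set (av_ker_integrable hf hC hC0 hl (x + h)).integrableOn ?_ ?_
    · exact Eventually.of_forall fun u => mul_nonneg (av_nonneg hf u)
        (mul_nonneg hl.le (ker_nonneg _))
    · refine LE.le.eventuallyLE fun u hu => ?_
      have := hu.1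
      rw [add_sub_cancel_right] at this
      exact lt_of_lt_of_le hx this

theorem lower (hf : ∀ n, 0 ≤ f n) (hC : ∀ n : ℕ, ∑ k ∈ Finset.Icc 1 n, f k ≤ C * n)
    (hC0 : 0 ≤ C) {lam h x : ℝ} (hl : 0 < lam) (hh : 0 ≤ h) :
    P f lam (x - h) ≤ av f x * Real.exp (2 * h) * mk (lam * h) + C * (M - mk (lam * h)) := by
  have hpos : ∀ u, 0 ≤ lam * ker (lam * (x - h - u)) := fun u => mul_nonneg hl.le (ker_nonneg _)
  have h0 : P f lam (x - h) ≤ ∫ u, av f u * (lam * ker (lam * (x - h - u))) :=
    setIntegral_le_integral (av_ker_integrable hf hC hC0 hl _)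
      (Eventually.of_forall fun u => mul_nonneg (av_nonneg hf u) (hpos u))
  refine h0.trans ?_
  rw [← integral_add_compl (measurableSet_Icc (a := x - h - h) (b := x - h + h))
    (av_ker_integrable hf hC hC0 hl _)]
  refine add_le_add ?_ ?_
  · rw [← local_mass hl (x - h) hh, ← integral_const_mul]
    refine setIntegral_mono_on (av_ker_integrable hf hC hC0 hl _).integrableOn
      ((ker_comp_integrable hl _).const_mul _).integrableOn measurableSet_Icc fun u hu => ?_
    refine mul_le_mul_of_nonneg_right ?_ (hpos u)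
    have hux : u ≤ x := by have := hu.2; linarith
    have h2 := av_mono hf hux
    have h3 : av f u = av f u * Real.exp (u - x) * Real.exp (x - u) := by
      rw [mul_assoc, ← Real.exp_add]; simp
    rw [h3]
    refine mul_le_mul h2 (Real.exp_le_exp.2 ?_) (Real.exp_pos _).le (av_nonneg hf _)
    have := hu.1
    linarith
  · have h4 : ∫ u in (Icc (x - h - h) (x - h + h))ᶜ, lam * ker (lam * (x - h - u)) =
        M - mk (lam * h) := by
      have h5 := integral_add_compl (measurableSet_Icc (a := x - h - h) (b := x - h + h))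
        (ker_comp_integrable hl (x - h))
      rw [local_mass hl (x - h) hh, total hl] at h5
      linarith
    rw [← h4, ← integral_const_mul]
    refine setIntegral_mono_on (av_ker_integrable hf hC hC0 hl _).integrableOn
      ((ker_comp_integrable hl _).const_mul _).integrableOn measurableSet_Icc.compl fun u _ => ?_
    exact mul_le_mul_of_nonneg_right (av_le hC hC0 u) (hpos u)

/-- **Wiener–Ikehara**, in the variable `log x`. -/
theorem av_tendsto (hf : ∀ n, 0 ≤ f n) (hC : ∀ n : ℕ, ∑ k ∈ Finset.Icc 1 n, f k ≤ C * n)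
    {A : ℝ} {H : ℂ → ℂ}
    (hH : ∀ s : ℂ, 1 < s.re → LSeries (fun n => (f n : ℂ)) s = H s + A / (s - 1))
    (hHc : ContinuousOn H {s | 1 ≤ s.re}) : Tendsto (av f) atTop (𝓝 A) := by
  have hC0 : 0 ≤ C := by
    have h1 := hC 1
    simp only [Finset.Icc_self, Finset.sum_singleton, Nat.cast_one, mul_one] at h1
    exact (hf 1).trans h1
  have hM := M_pos
  have hexp1 : Tendsto (fun T : ℝ => Real.exp (-(2 * (1 / T)))) atTop (𝓝 1) := by
    have h1 : Tendsto (fun T : ℝ => -(2 * (1 / T))) atTop (𝓝 0) := by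
      have h2 := (tendsto_const_nhds (x := (1:ℝ)) (f := atTop)).div_atTop
        (tendsto_id (α := ℝ) (x := atTop))
      have h3 := (h2.const_mul 2).neg
      simpa using h3
    have h2 := (Real.continuous_exp.tendsto 0).comp h1
    rw [Real.exp_zero] at h2
    exact h2
  have hexp2 : Tendsto (fun T : ℝ => Real.exp (2 * (1 / T))) atTop (𝓝 1) := by
    have h1 : Tendsto (fun T : ℝ => (2 * (1 / T))) atTop (𝓝 0) := by
      have h2 := (tendsto_const_nhds (x := (1:ℝ)) (f := atTop)).div_atTop
        (tendsto_id (α := ℝ) (x := atTop))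
      have h3 := h2.const_mul 2
      simpa using h3
    have h2 := (Real.continuous_exp.tendsto 0).comp h1
    rw [Real.exp_zero] at h2
    exact h2
  rw [tendsto_order]
  constructor
  · intro B hB
    -- lower bound
    have hlim : Tendsto (fun T : ℝ => B * Real.exp (2 * (1 / T)) * mk T + C * (M - mk T)) atTop
        (𝓝 (B * 1 * M + C * (M - M))) :=
      ((hexp2.const_mul B).mul mk_tendsto).add ((mk_tendsto.const_sub M).const_mul C)
    have hlt : B * 1 * M + C * (M - M) < A * M := by
      rw [sub_self, mul_zero, add_zero, mul_one]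
      exact mul_lt_mul_of_pos_right hB hM
    obtain ⟨T, hT1, hT2⟩ := ((hlim.eventually_lt_const hlt).and (eventually_gt_atTop 0)).exists
    have hl : 0 < T ^ 2 := by positivity
    have hT3 : T ^ 2 * (1 / T) = T := by field_simp
    have hP := (P_tendsto hf hC hC0 hH hHc hl).comp
      (tendsto_atTop_add_const_right atTop (-(1 / T)) tendsto_id)
    filter_upwards [hP.eventually_const_lt hT1] with x hx
    simp only [Function.comp, id] at hx
    have h2 := lower hf hC hC0 (x := x) hl (one_div_pos.2 hT2).le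
    rw [hT3] at h2
    rw [← sub_eq_add_neg] at hx
    by_contra hcon
    rw [not_lt] at hcon
    have h3 : av f x * Real.exp (2 * (1 / T)) * mk T ≤ B * Real.exp (2 * (1 / T)) * mk T := by
      refine mul_le_mul_of_nonneg_right ?_ (mk_nonneg hT2.le)
      exact mul_le_mul_of_nonneg_right hcon (Real.exp_pos _).le
    linarith
  · intro B hB
    have hlim : Tendsto (fun T : ℝ => B * Real.exp (-(2 * (1 / T))) * mk T) atTop
        (𝓝 (B * 1 * M)) := (hexp1.const_mul B).mul mk_tendsto
    have hlt : A * M < B * 1 * M := by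
      rw [mul_one]
      exact mul_lt_mul_of_pos_right hB hM
    obtain ⟨T, hT1, hT2⟩ := ((hlim.eventually_const_lt hlt).and (eventually_gt_atTop 0)).exists
    have hl : 0 < T ^ 2 := by positivity
    have hT3 : T ^ 2 * (1 / T) = T := by field_simp
    have hP := (P_tendsto hf hC hC0 hH hHc hl).comp
      (tendsto_atTop_add_const_right atTop (1 / T) tendsto_id)
    filter_upwards [hP.eventually_lt_const hT1, eventually_gt_atTop 0] with x hx hx0
    simp only [Function.comp, id] at hx
    have h2 := upper hf hC hC0 hl (one_div_pos.2 hT2).le hx0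
    rw [hT3] at h2
    by_contra hcon
    rw [not_lt] at hcon
    have h3 : B * Real.exp (-(2 * (1 / T))) * mk T ≤ av f x * Real.exp (-(2 * (1 / T))) * mk T := by
      refine mul_le_mul_of_nonneg_right ?_ (mk_nonneg hT2.le)
      exact mul_le_mul_of_nonneg_right hcon (Real.exp_pos _).le
    linarith

/-- **Wiener–Ikehara theorem** (with a Chebyshev bound as hypothesis). -/
theorem wiener_ikehara (hf : ∀ n, 0 ≤ f n) (hC : ∀ n : ℕ, ∑ k ∈ Finset.Icc 1 n, f k ≤ C * n)
    {A : ℝ} {H : ℂ → ℂ}
    (hH : ∀ s : ℂ, 1 < s.re → LSeries (fun n => (f n : ℂ)) s = H s + A / (s - 1))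
    (hHc : ContinuousOn H {s | 1 ≤ s.re}) :
    Tendsto (fun x : ℝ => (∑ k ∈ Finset.Icc 1 ⌊x⌋₊, f k) / x) atTop (𝓝 A) := by
  have h1 := (av_tendsto hf hC hH hHc).comp Real.tendsto_log_atTop
  refine h1.congr' ?_
  filter_upwards [eventually_gt_atTop 0] with x hx
  simp only [Function.comp, av, S]
  rw [Real.exp_neg, Real.exp_log hx, div_eq_mul_inv]

end WI
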