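import Mathlib
import Pool.Agent.Work.WI.W4

/-!
# Prime number theorem, also in arithmetic progressions (helper19)
-/

set_option autoImplicit false

open MeasureTheory Set Filter Topology ArithmeticFunction

namespace WI

variable {q : ℕ} [NeZero q] {a : ZMod q}

/-- The prime number theorem in arithmetic progressions, for the von Mangoldt function. -/
theorem pnt_ap (ha : IsUnit a) :
    Tendsto (fun x : ℝ => (∑ k ∈ Finset.Icc 1 ⌊x⌋₊, vonMangoldt.residueClass a k) / x) atTop
      (𝓝 ((q.totient : ℝ)⁻¹)) := by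
  refine wiener_ikehara (f := vonMangoldt.residueClass a) (C := Real.log 4 + 4)
    (A := (q.totient : ℝ)⁻¹) (H := vonMangoldt.LFunctionResidueClassAux a)
    (vonMangoldt.residueClass_nonneg a) ?_ ?_
    (vonMangoldt.continuousOn_LFunctionResidueClassAux a)
  · intro n
    refine le_trans (Finset.sum_le_sum fun k _ => vonMangoldt.residueClass_le a k) ?_
    have h := Chebyshev.psi_le_const_mul_self (x := (n : ℝ)) (Nat.cast_nonneg n)
    unfold Chebyshev.psi at h
    rw [Nat.floor_natCast] at h
    exact h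
  · intro s hs
    have h := vonMangoldt.eqOn_LFunctionResidueClassAux ha hs
    simp only at h
    rw [h]
    push_cast
    ring

/-- The prime number theorem for the von Mangoldt function. -/
theorem psi_tendsto : Tendsto (fun x : ℝ => Chebyshev.psi x / x) atTop (𝓝 1) := by
  have h := pnt_ap (q := 1) (a := 1) isUnit_one
  simp only [Nat.totient_one, Nat.cast_one, inv_one] at h
  refine h.congr fun x => ?_
  congr 1
  unfold Chebyshev.psi
  refine Finset.sum_congr rfl fun k _ => ?_
  unfold vonMangoldt.residueClass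
  rw [Set.indicator_of_mem]
  exact Subsingleton.elim _ _

/-- The sum of `log p` over the primes `p ≤ x` with `p ≡ a`. -/
noncomputable def thetaAP (a : ZMod q) (x : ℝ) : ℝ :=
  ∑ p ∈ (Finset.Icc 1 ⌊x⌋₊).filter (fun p : ℕ => p.Prime ∧ (p : ZMod q) = a), Real.log (p : ℝ)

theorem psi_sub_theta_div : Tendsto (fun x : ℝ => (Chebyshev.psi x - Chebyshev.theta x) / x) atTop
    (𝓝 0) := by
  obtain ⟨C, hC⟩ := Chebyshev.psi_sub_theta_le_mul_sqrt
  have h1 : Tendsto (fun x : ℝ => C * (Real.sqrt x)⁻¹) atTop (𝓝 (C * 0)) :=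
    (tendsto_inv_atTop_zero.comp Real.tendsto_sqrt_atTop).const_mul C
  rw [mul_zero] at h1
  refine tendsto_of_tendsto_of_tendsto_of_le_of_le' tendsto_const_nhds h1 ?_ ?_
  · filter_upwards [eventually_gt_atTop 0] with x hx
    exact div_nonneg (sub_nonneg.2 (Chebyshev.theta_le_psi x)) hx.le
  · filter_upwards [eventually_gt_atTop 0] with x hx
    rw [div_le_iff₀ hx]
    refine (hC x).trans (le_of_eq ?_)
    have h2 : Real.sqrt x * Real.sqrt x = x := Real.mul_self_sqrt hx.le
    have h3 : Real.sqrt x ≠ 0 := (Real.sqrt_pos.2 hx).ne'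
    calc C * Real.sqrt x = C * (Real.sqrt x)⁻¹ * (Real.sqrt x * Real.sqrt x) := by
          field_simp
      _ = _ := by rw [h2]

/-- The prime number theorem in arithmetic progressions. -/
theorem thetaAP_tendsto (ha : IsUnit a) :
    Tendsto (fun x : ℝ => thetaAP a x / x) atTop (𝓝 ((q.totient : ℝ)⁻¹)) := by
  have h1 := pnt_ap ha
  have h2 := h1.sub psi_sub_theta_div
  rw [sub_zero] at h2
  refine tendsto_of_tendsto_of_tendsto_of_le_of_le' h2 h1 ?_ ?_
  · filter_upwards [eventually_gt_atTop 0] with x hx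
    rw [← sub_div]
    refine div_le_div_of_nonneg_right ?_ hx.le
    rw [sub_le_iff_le_add, thetaAP]
    have h3 : Chebyshev.psi x - Chebyshev.theta x =
        ∑ k ∈ Finset.Icc 1 ⌊x⌋₊, (vonMangoldt k - if k.Prime then Real.log (k : ℝ) else 0) := by
      rw [Finset.sum_sub_distrib, ← Finset.sum_filter]
      rfl
    rw [h3, Finset.sum_filter, ← Finset.sum_add_distrib]
    refine Finset.sum_le_sum fun k _ => ?_
    unfold vonMangoldt.residueClass
    by_cases hk : (k : ZMod q) = a
    · rw [Set.indicator_of_mem (by exact hk)]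
      by_cases hp : k.Prime
      · simp [hk, hp]
      · simp [hk, hp]
    · rw [Set.indicator_of_notMem (by exact hk)]
      by_cases hp : k.Prime
      · simp [hk, hp, vonMangoldt_apply_prime hp]
      · simp [hk, hp]
  · filter_upwards [eventually_gt_atTop 0] with x hx
    refine div_le_div_of_nonneg_right ?_ hx.le
    rw [thetaAP, Finset.sum_filter]
    refine Finset.sum_le_sum fun k _ => ?_
    unfold vonMangoldt.residueClass
    by_cases hk : (k : ZMod q) = a
    · rw [Set.indicator_of_mem (by exact hk)]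
      by_cases hp : k.Prime
      · simp [hk, hp, vonMangoldt_apply_prime hp]
      · simp [hk, hp]
    · rw [Set.indicator_of_notMem (by exact hk)]
      simp [hk]

/-- Primes in short intervals `(x, (1 + ε) x]` in arithmetic progressions. -/
theorem prime_gap_ap (ha : IsUnit a) {ε : ℝ} (hε : 0 < ε) :
    ∀ᶠ x : ℝ in atTop, ∃ p : ℕ, p.Prime ∧ (p : ZMod q) = a ∧ x < p ∧ (p : ℝ) ≤ (1 + ε) * x := by
  have hφ : 0 < ((q.totient : ℝ)⁻¹) := by
    have : 0 < q.totient := Nat.totient_pos.2 (Nat.pos_of_ne_zero (NeZero.ne q))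
    positivity
  have h1 := thetaAP_tendsto ha
  have h2 : Tendsto (fun x : ℝ => thetaAP a ((1 + ε) * x) / x) atTop
      (𝓝 ((1 + ε) * (q.totient : ℝ)⁻¹)) := by
    have h3 : Tendsto (fun x : ℝ => (1 + ε) * x) atTop atTop :=
      tendsto_id.const_mul_atTop (by linarith)
    have h4 := (h1.comp h3).const_mul (1 + ε)
    refine h4.congr' ?_
    filter_upwards [eventually_gt_atTop 0] with x hx
    simp only [Function.comp]
    have : (1 + ε) ≠ 0 := by linarith
    field_simp
  have h5 := h2.sub h1
  have h6 : 0 < (1 + ε) * (q.totient : ℝ)⁻¹ - (q.totient : ℝ)⁻¹ := by nlinarith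
  filter_upwards [h5.eventually_const_lt h6, eventually_gt_atTop 0] with x hx hx0
  rw [← sub_div] at hx
  have h7 : 0 < thetaAP a ((1 + ε) * x) - thetaAP a x := by
    have := (lt_div_iff₀ hx0).1 hx
    simpa using this
  by_contra hcon
  push Not at hcon
  have h8 : thetaAP a ((1 + ε) * x) ≤ thetaAP a x := by
    unfold thetaAP
    refine Finset.sum_le_sum_of_subset_of_nonneg ?_ ?_
    · intro p hp
      rw [Finset.mem_filter, Finset.mem_Icc] at hp ⊢
      refine ⟨⟨hp.1.1, ?_⟩, hp.2⟩
      by_contra hlt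
      rw [not_le, Nat.floor_lt hx0.le] at hlt
      have h9 := hcon p hp.2.1 hp.2.2 hlt
      have h10 : (p : ℝ) ≤ (1 + ε) * x := (Nat.le_floor_iff (by positivity)).1 hp.1.2
      linarith
    · intro p hp _
      rw [Finset.mem_filter] at hp
      exact Real.log_nonneg (by exact_mod_cast hp.2.1.one_lt.le)
  linarith

/-- Primes in the intervals `(x, (1 + ε) x]`. -/
theorem prime_gap {ε : ℝ} (hε : 0 < ε) :
    ∀ᶠ x : ℝ in atTop, ∃ p : ℕ, p.Prime ∧ x < p ∧ (p : ℝ) ≤ (1 + ε) * x := by
  filter_upwards [prime_gap_ap (q := 1) (a := 1) isUnit_one hε] with x hx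
  obtain ⟨p, h1, _, h3⟩ := hx
  exact ⟨p, h1, h3⟩

end WI
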